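import Mathlib
import Pool.Agent.N718.GC.Stm

/-!
# The Brauer-Manin obstruction for generalised Châtelet bundles with random forms (project GB, helper718)

Definitions and statements of the parts. The whole proof is described in the subtasks.
-/

set_option autoImplicit false
set_option linter.all false

namespace Pool.Agent.N718.GB

open Finset Pool.Agent.N718.DC Pool.Agent.N718.GC

variable {r m : ℕ}

/-- The conditions on the data: the `a_j` and the `b_j` are not zero and the degrees of the right hand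
sides are even. -/
structure Ok2 (E : Dat r m) (e : Fin m → ℕ) : Prop where
  ha : ∀ j, E.a j ≠ 0
  hb : ∀ j, E.b j ≠ 0
  ev : ∀ j, Even (∑ i ∈ E.I j, (e i + 1))

open Classical in
/-- The Hilbert symbol `(a, N)` over the field `K`. -/
noncomputable def hs {K : Type} [Field K] (a N : K) : ℤ := if Nm a N then 1 else -1

/-- The value of the class `∑ (a_j, F_i)`, `(j, i)` in `R`, at a point over `(x, y)`. -/
noncomputable def vl (E : Dat r m) {e : Fin m → ℕ} (c : (i : Fin m) → Fin (e i + 2) → ℤ)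
    (R : Finset (Fin r × Fin m)) {K : Type} [Field K] (x y : K) : ℤ :=
  ∏ z ∈ R, hs (E.a z.1 : K) (fmv (c z.2) x y)

/-- The pairs `(j, i)` with `i ∈ I_j`. -/
def Adm (E : Dat r m) (R : Finset (Fin r × Fin m)) : Prop := ∀ z ∈ R, z.2 ∈ E.I z.1

/-- The class is defined on the projective line, so it is unramified on the variety. -/
def Unr (E : Dat r m) (e : Fin m → ℕ) (R : Finset (Fin r × Fin m)) : Prop :=
  Adm E R ∧ IsSquare (∏ z ∈ R, E.a z.1 ^ (e z.2 + 1))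

/-- The local points over `(X p, Y p)` and `(1, t)` are orthogonal to the vertical Brauer group: for all
unramified classes the values are trivial outside of a finite set of primes, and their product is `1`. -/
def Orth (E : Dat r m) {e : Fin m → ℕ} (c : (i : Fin m) → Fin (e i + 2) → ℤ)
    (X Y : (p : Nat.Primes) → ℚ_[(p : ℕ)]) (t : ℝ) : Prop :=
  ∀ R : Finset (Fin r × Fin m), Unr E e R → ∃ S : Finset Nat.Primes,
    (∀ p, p ∉ S → vl E c R (X p) (Y p) = 1) ∧ vl E c R (1 : ℝ) t * ∏ p ∈ S, vl E c R (X p) (Y p) = 1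

/-! ### Consistent signs and generators -/

/-- The signs can be values of quadratic characters at the `a_j`. -/
def Cons (E : Dat r m) (ε : Fin r → ℤ) : Prop :=
  (∀ j, ε j = 1 ∨ ε j = -1) ∧ ∀ T : Finset (Fin r), IsSquare (∏ j ∈ T, E.a j) → ∏ j ∈ T, ε j = 1

/-- Part CHI2: a residue class with prescribed symbols. -/
def S_CHI2 : Prop := ∀ (r m : ℕ) (E : Dat r m), (∀ j, E.a j ≠ 0) → ∀ ε : Fin r → ℤ, Cons E ε →
  ∃ h : ℕ, Nat.Coprime h (4 * ∏ j, (E.a j).natAbs) ∧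
    ∀ l : ℕ, l % (4 * ∏ j, (E.a j).natAbs) = h % (4 * ∏ j, (E.a j).natAbs) →
      ∀ j, jacobiSym (E.a j) l = ε j

/-- Part SEP: the characters separate the square classes. -/
def S_SEP : Prop := ∀ (r m : ℕ) (E : Dat r m), (∀ j, E.a j ≠ 0) → ∀ n : Fin r → ℕ,
  (∀ ε : Fin r → ℤ, Cons E ε → ∏ j, ε j ^ n j = 1) → IsSquare (∏ j, E.a j ^ n j)

/-- The indices of the local points which are used to change the symbols: a pair of forms or nothing, and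
signs. -/
abbrev Th (r m : ℕ) := Option (Fin m × Fin m) × (Fin r → ℤ)

/-- The admissible indices. -/
def IsTh (E : Dat r m) (θ : Th r m) : Prop :=
  Cons E θ.2 ∧ ∀ i i', θ.1 = some (i, i') → i ≠ i' ∧ ∀ j, ¬ (i ∈ E.I j ↔ i' ∈ E.I j) → θ.2 j = 1

/-- The changes of the symbols. -/
def vec (e : Fin m → ℕ) (θ : Th r m) (z : Fin r × Fin m) : ℤ :=
  match θ.1 with
  | none => if Odd (e z.2 + 1) then θ.2 z.1 else 1
  | some w => if z.2 = w.1 ∨ z.2 = w.2 then θ.2 z.1 else 1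

/-- The set `R` is orthogonal to all changes of the symbols. -/
def Ann (E : Dat r m) (e : Fin m → ℕ) (R : Finset (Fin r × Fin m)) : Prop :=
  Adm E R ∧ ∀ θ : Th r m, IsTh E θ → ∏ z ∈ R, vec e θ z = 1

/-- Part ANN: these sets define unramified classes. -/
def S_ANN : Prop := ∀ (r m : ℕ) (E : Dat r m) (e : Fin m → ℕ), Ok2 E e →
  ∀ R : Finset (Fin r × Fin m), Ann E e R → Unr E e R

/-- Part DUAL: double annihilators. -/
def S_DUAL : Prop := ∀ (P Θ : Type) [Fintype P] [DecidableEq P] [Fintype Θ] [DecidableEq Θ]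
  (v : Θ → P → ℤ) (κ : P → ℤ), (∀ θ p, v θ p = 1 ∨ v θ p = -1) → (∀ p, κ p = 1 ∨ κ p = -1) →
  (∀ R : Finset P, (∀ θ, ∏ p ∈ R, v θ p = 1) → ∏ p ∈ R, κ p = 1) →
  ∃ Θ' : Finset Θ, ∀ p, κ p = ∏ θ ∈ Θ', v θ p

/-- Part SPAN: a vector of symbols which is orthogonal to all such sets is a product of changes. -/
def S_SPAN : Prop := ∀ (r m : ℕ) (E : Dat r m) (e : Fin m → ℕ), Ok2 E e →
  ∀ κ : Fin r × Fin m → ℤ, (∀ z, κ z = 1 ∨ κ z = -1) →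
  (∀ R : Finset (Fin r × Fin m), Ann E e R → ∏ z ∈ R, κ z = 1) →
  ∃ Q : Finset (Th r m), (∀ θ ∈ Q, IsTh E θ) ∧ ∀ z : Fin r × Fin m, z.2 ∈ E.I z.1 →
    κ z = ∏ θ ∈ Q, vec e θ z

/-! ### Large primes -/

/-- At most two forms vanish at every point modulo `l`. -/
def Few {e : Fin m → ℕ} (c : (i : Fin m) → Fin (e i + 2) → ℤ) (l : ℕ) : Prop :=
  ∀ u₀ u₁ : ℤ, ¬ ((l : ℤ) ∣ u₀ ∧ (l : ℤ) ∣ u₁) → ∀ i j k : Fin m, i ≠ j → i ≠ k → j ≠ k →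
    ¬ ((l : ℤ) ∣ fm (c i) u₀ u₁ ∧ (l : ℤ) ∣ fm (c j) u₀ u₁ ∧ (l : ℤ) ∣ fm (c k) u₀ u₁)

open Classical in
/-- Part FEW: this holds for almost all families and all large primes. -/
def S_FEW : Prop := ∀ (m : ℕ) (e : Fin m → ℕ) (η : ℝ), 0 < η → ∃ W₀ : ℕ, ∃ H₀ : ℕ, ∀ H : ℕ, H₀ ≤ H →
    (((BXI e H).filter (fun c => ∃ l : ℕ, l.Prime ∧ W₀ < l ∧ ¬ Few c l)).card : ℝ) ≤
      η * ((2 * H + 1 : ℕ) : ℝ) ^ ncI e

/-- Part LGEN: the values of the classes at local points over large primes. -/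
def S_LGEN : Prop := ∀ (r m : ℕ) (E : Dat r m) (e : Fin m → ℕ), Ok2 E e → ∀ (l : ℕ) [Fact l.Prime],
  l ≠ 2 → (∀ j, ¬ (l : ℤ) ∣ E.a j * E.b j) → ∀ c : (i : Fin m) → Fin (e i + 2) → ℤ, Few c l →
  ∀ x y : ℚ_[l], max ‖x‖ ‖y‖ = 1 → PG E c x y → ∀ R : Finset (Fin r × Fin m), Ann E e R →
    vl E c R x y = 1

/-- Part HSL: Hilbert symbols at good primes. -/
def S_HSL : Prop := ∀ (l : ℕ) [Fact l.Prime] (a N : ℤ), l ≠ 2 → ¬ (l : ℤ) ∣ a → N ≠ 0 →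
  hs (a : ℚ_[l]) (N : ℚ_[l]) = jacobiSym a l ^ padicValNat l N.natAbs

/-- Part KHS: the product formula for the symbols. -/
def S_KHS : Prop := ∀ (M : ℕ) (S : Finset Nat.Primes) (a N : ℤ), a ≠ 0 → N ≠ 0 → Cont M a →
  (∀ p : Nat.Primes, p ∈ S ↔ (p : ℕ) ∣ M) →
  kap M a N = hs (a : ℝ) (N : ℝ) * ∏ p ∈ S, hs (a : ℚ_[(p : ℕ)]) (N : ℚ_[(p : ℕ)])

/-! ### Residue classes -/

/-- Part LCI2: the conditions depend only on the residue classes. -/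
def S_LCI2 : Prop := ∀ (r m : ℕ) (E : Dat r m) (e : Fin m → ℕ), Ok2 E e → ∀ M : ℕ, Bad E M →
  ∀ (γ γ' : (i : Fin m) → Fin (e i + 2) → ℤ) (s : Fin m → ℤ) (a₀ a₁ a₀' a₁' : ℤ),
    (∀ i, s i = 1 ∨ s i = -1) → (∀ i j, (M : ℤ) ∣ γ i j - γ' i j) → (M : ℤ) ∣ a₀ - a₀' →
    (M : ℤ) ∣ a₁ - a₁' → LC E M γ s a₀ a₁ → LC E M γ' s a₀' a₁'

open Classical in
/-- Part CLSG2: rational points for almost all families in a residue class. -/
def S_CLSG2 : Prop := ∀ (r m : ℕ) (E : Dat r m) (e : Fin m → ℕ), Ok2 E e → ∃ C : ℝ, 0 ≤ C ∧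
  ∀ W M : ℕ, 1 ≤ W → Bad E M → (∀ p : ℕ, p.Prime → p ≤ W → p ∣ M) →
  (∀ p : ℕ, p.Prime → p ∣ M → p ≤ W) →
  ∀ (a₀ a₁ : ℤ) (α β : ℝ), α < β → ∀ (γ : (i : Fin m) → Fin (e i + 2) → ℤ) (s : Fin m → ℤ), SG E s →
    LC E M γ s a₀ a₁ →
  ∃ H₀ : ℕ, ∀ H : ℕ, H₀ ≤ H →
    (((BXI e H).filter (fun c => (∀ i j, (M : ℤ) ∣ c i j - γ i j) ∧
      (∀ i, ∀ z : ℝ, α < z → z < β → 0 < (s i : ℝ) * fmv (c i) 1 z) ∧
      ¬ ∃ x y : ℤ, 0 < x ∧ (M : ℤ) ∣ x - a₀ ∧ (M : ℤ) ∣ y - a₁ ∧ α * x < y ∧ (y : ℝ) < β * x ∧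
        PG E c (x : ℚ) (y : ℚ))).card : ℝ) ≤
      C / W * (((2 * H + 1 : ℕ) : ℝ) / M) ^ ncI e

/-! ### Primes which change the symbols -/

/-- The prime `l` belongs to the index `θ`. -/
def Flip2 (E : Dat r m) {e : Fin m → ℕ} (c : (i : Fin m) → Fin (e i + 2) → ℤ) (θ : Th r m)
    (l : ℕ) : Prop :=
  l.Prime ∧ (∀ j, jacobiSym (E.a j) l = θ.2 j) ∧ ∀ i i', θ.1 = some (i, i') → Dbl c i i' l

open Classical in
/-- Part RESL2: almost all families have such primes. -/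
def S_RESL2 : Prop := ∀ (r m : ℕ) (E : Dat r m) (e : Fin m → ℕ), Ok2 E e → ∀ θ : Th r m, IsTh E θ →
  ∀ (W : ℕ) (η : ℝ), 0 < η → ∃ W' : ℕ, W < W' ∧ ∃ H₀ : ℕ, ∀ H : ℕ, H₀ ≤ H →
    (((BXI e H).filter (fun c => ¬ ∃ l : ℕ, W < l ∧ l ≤ W' ∧ Flip2 E c θ l)).card : ℝ) ≤
      η * ((2 * H + 1 : ℕ) : ℝ) ^ ncI e

/-- There are different such primes for all admissible indices. -/
def Wind2 (E : Dat r m) {e : Fin m → ℕ} (c : (i : Fin m) → Fin (e i + 2) → ℤ) (W W' : ℕ) : Prop :=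
  ∃ L : Th r m → ℕ, (∀ θ, IsTh E θ → W < L θ ∧ L θ ≤ W' ∧ Flip2 E c θ (L θ)) ∧
    ∀ θ θ', IsTh E θ → IsTh E θ' → L θ = L θ' → θ = θ'

open Classical in
/-- Part RESW2: almost all families have such a system of primes. -/
def S_RESW2 : Prop := ∀ (r m : ℕ) (E : Dat r m) (e : Fin m → ℕ), Ok2 E e →
  ∀ (W : ℕ) (η : ℝ), 0 < η → ∃ W' : ℕ, W < W' ∧ ∃ H₀ : ℕ, ∀ H : ℕ, H₀ ≤ H →
    (((BXI e H).filter (fun c => ¬ Wind2 E c W W')).card : ℝ) ≤ η * ((2 * H + 1 : ℕ) : ℝ) ^ ncI e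

/-- An exponent which is large enough for the primes in the window. -/
def ex (e : Fin m → ℕ) : ℕ := 4 + ∑ i, (e i + 1)

/-- Part GLUEB: the local points are replaced by one integral point with trivial symbols. -/
def S_GLUEB : Prop := ∀ (r m : ℕ) (E : Dat r m) (e : Fin m → ℕ), 1 ≤ m → Ok2 E e →
  ∀ (S : Finset Nat.Primes) (N W W' : ℕ) (n : ℕ → ℕ) (M : ℕ), 2 ≤ W → W ≤ W' →
    (∀ p : ℕ, p.Prime → (p : ℤ) ∣ ∏ j, (E.a j * E.b j) → p ≤ W) →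
    M = (∏ p ∈ (Icc 1 W).filter Nat.Prime, p ^ (3 * n p + 11 + dl E p)) *
      ∏ l ∈ (Ioc W W').filter Nat.Prime, l ^ ex e →
    (∀ p ∈ S, (p : ℕ) ≤ W) → (∀ p, N ≤ n p) → ∀ c : (i : Fin m) → Fin (e i + 2) → ℤ,
    (∀ p : ℕ, p.Prime → p ≤ W → ¬ padBad p (n p) c) →
    (∀ l : ℕ, l.Prime → W < l → l ≤ W' → Triv c l) → Wind2 E c W W' →
    ∀ s : Fin m → ℤ, SG E s → ∀ X Y : (p : Nat.Primes) → ℚ_[(p : ℕ)],
    (∀ p : Nat.Primes, (p : ℕ) ≤ W → PG E c (X p) (Y p)) → (∀ p, max ‖X p‖ ‖Y p‖ = 1) →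
    (∀ SW : Finset Nat.Primes, (∀ p : Nat.Primes, p ∈ SW ↔ (p : ℕ) ≤ W) →
      ∀ R : Finset (Fin r × Fin m), Ann E e R →
        (∏ z ∈ R, hs (E.a z.1 : ℝ) (s z.2 : ℝ)) * ∏ p ∈ SW, vl E c R (X p) (Y p) = 1) →
    ∃ a₀ a₁ : ℤ, (∀ p ∈ S, ‖X p - (a₀ : ℚ_[(p : ℕ)])‖ ≤ (((p : ℕ) : ℝ) ^ N)⁻¹ ∧
        ‖Y p - (a₁ : ℚ_[(p : ℕ)])‖ ≤ (((p : ℕ) : ℝ) ^ N)⁻¹) ∧ LC E M c s a₀ a₁

/-! ### The main theorem -/

/-- The Brauer-Manin obstruction is the only obstruction: for all local points over base points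
`(X p, Y p)` (in primitive coordinates) and `(1, t)`, `t ∈ U`, which are orthogonal to the vertical Brauer
group, there is a rational point over a base point in `U` and close to the `(X p, Y p)` for `p` in `S`. -/
def BMG (E : Dat r m) {e : Fin m → ℕ} (U : Set ℝ) (S : Finset Nat.Primes) (N : ℕ)
    (c : (i : Fin m) → Fin (e i + 2) → ℤ) : Prop :=
  ∀ (X Y : (p : Nat.Primes) → ℚ_[(p : ℕ)]) (t : ℝ), t ∈ U → PG E c (1 : ℝ) t →
    (∀ p, PG E c (X p) (Y p)) → (∀ p, max ‖X p‖ ‖Y p‖ = 1) → Orth E c X Y t →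
    ∃ x y : ℤ, 0 < x ∧ (y : ℝ) / x ∈ U ∧ PG E c (x : ℚ) (y : ℚ) ∧
      ∀ p ∈ S, ‖X p - (x : ℚ_[(p : ℕ)])‖ ≤ (((p : ℕ) : ℝ) ^ N)⁻¹ ∧
        ‖Y p - (y : ℚ_[(p : ℕ)])‖ ≤ (((p : ℕ) : ℝ) ^ N)⁻¹

open Classical in
/-- Part MAINB2: the Brauer-Manin obstruction is the only one for almost all families. -/
def S_MAINB2 : Prop := ∀ (r m : ℕ) (E : Dat r m) (e : Fin m → ℕ), 1 ≤ m → Ok2 E e → ∀ U : Set ℝ,
  IsOpen U → ∀ (S : Finset Nat.Primes) (N : ℕ) (η : ℝ), 0 < η → ∃ H₀ : ℕ, ∀ H : ℕ, H₀ ≤ H →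
    (((BXI e H).filter (fun c => ¬ BMG E U S N c)).card : ℝ) ≤ η * ((2 * H + 1 : ℕ) : ℝ) ^ ncI e

end Pool.Agent.N718.GB
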